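import Pool.Agent.N869.QT.L.Stm
import Pool.Agent.N869.QT.L.LA2

/-!
# Project QT: the number of the strongly independent tuples (`S_LA2C`)
-/

set_option autoImplicit false
set_option linter.unusedVariables false
set_option linter.unusedSectionVars false

open scoped Classical

namespace Pool.Agent.N717.QT.LA2C

open Finset Pool.Agent.N869.QT.L Pool.Agent.N869.QT.L.LA0 Pool.Agent.N869.QT.L.LA1

section one

variable {U J : Type} [Fintype U] [Fintype J] [LinearOrder J] (W : Finset U) (L : Finset J)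
  (sU tU : U → ZMod 2) (sJ tJ : J → ZMod 2) (A : U → U → ZMod 2) (B : U → J → ZMod 2)

/-- sum over pairs of elements of `L` -/
theorem sum_prs_sub (F : J → J → ZMod 2) :
    ∑ e ∈ prs L, F e.1 e.2 = ∑ e ∈ (prs J).filter (fun e => e.1 ∈ L ∧ e.2 ∈ L), F e.1 e.2 := by
  refine Finset.sum_bij (fun e _ => ((e.1 : J), (e.2 : J))) ?_ ?_ ?_ ?_
  · intro e he
    rw [Finset.mem_filter]
    have h1 : e.1 < e.2 := mem_prs.1 he
    exact ⟨mem_prs.2 h1, e.1.2, e.2.2⟩
  · rintro ⟨a, b⟩ _ ⟨c, d⟩ _ h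
    simp only [Prod.mk.injEq] at h
    exact Prod.ext (Subtype.ext h.1) (Subtype.ext h.2)
  · rintro ⟨a, b⟩ h
    rw [Finset.mem_filter] at h
    have h1 : a < b := mem_prs.1 h.1
    have h2 : (⟨a, h.2.1⟩ : L) < ⟨b, h.2.2⟩ := h1
    exact ⟨(⟨a, h.2.1⟩, ⟨b, h.2.2⟩), mem_prs.2 h2, rfl⟩
  · intro e _
    rfl

/-- the row of a small prime on the subtypes -/
theorem rowU_sub (x : (U → ZMod 2) × (J → ZMod 2)) (u : W) :
    rowU (fun u : W => sU u) (fun u v : W => A u v) (fun (u : W) (k : L) => B u k)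
      (fun u : W => x.1 u) (fun k : L => x.2 k) u =
    sU u * x.1 u + ∑ v ∈ W, A u v * (x.1 u + x.1 v) + ∑ l ∈ L, B u l * (x.1 u + x.2 l) := by
  unfold rowU
  rw [← Finset.sum_coe_sort W (fun v => A u v * (x.1 u + x.1 v)),
    ← Finset.sum_coe_sort L (fun l => B u l * (x.1 u + x.2 l))]

theorem rowJ_sub (R : L → L → ZMod 2) (x : (U → ZMod 2) × (J → ZMod 2)) (k : L) :
    rowJ (fun u : W => tU u) (fun k : L => sJ k) (fun k : L => tJ k)
      (fun (u : W) (k : L) => B u k) R (fun u : W => x.1 u) (fun k : L => x.2 k) k =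
    fJ W tU sJ tJ B x k + ∑ l, R k l * (x.2 k + x.2 l) := by
  unfold rowJ fJ
  rw [← Finset.sum_coe_sort W (fun u => (B u k + tU u * tJ k) * (x.2 k + x.1 u))]

/-- the sum over all pairs of `R k l (d k + d l)` -/
theorem sum_R (R : L → L → ZMod 2) (hR : ∀ k l, k ≠ l → R k l + R l k = tJ k * tJ l)
    (d : L → ZMod 2) :
    ∑ k, ∑ l, R k l * (d k + d l) = ∑ e ∈ prs L, tJ e.1 * tJ e.2 * (d e.1 + d e.2) := by
  rw [sum_pairs (fun k l => R k l * (d k + d l))]
  simp only [add_self0, mul_zero, Finset.sum_const_zero, add_zero]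
  refine Finset.sum_congr rfl fun e he => ?_
  rw [← hR e.1 e.2 (mem_prs.1 he).ne]
  ring

theorem c1_eq (hpar : ∑ u ∈ W, tU u + ∑ k ∈ L, tJ k = 0)
    (hrec : ∀ u v, u ≠ v → A u v + A v u = tU u * tU v) (x : (U → ZMod 2) × (J → ZMod 2))
    (hx : ∀ u ∈ W, sU u * x.1 u + ∑ v ∈ W, A u v * (x.1 u + x.1 v) +
      ∑ l ∈ L, B u l * (x.1 u + x.2 l) = 0) :
    c1C L tJ (fJ W tU sJ tJ B x) x.2 =
      colS (fun u : W => sU u) (fun u : W => tU u) (fun k : L => sJ k) (fun k : L => tJ k)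
        (fun u : W => x.1 u) (fun k : L => x.2 k) := by
  set R : L → L → ZMod 2 := ext (fun k : L => tJ k) (fun _ => 0) with hRd
  have hR : ∀ k l : L, k ≠ l → R k l + R l k = tJ k * tJ l := fun k l h => ext_add _ _ k l h
  rw [← sumrows (fun u : W => sU u) (fun u : W => tU u) (fun k : L => sJ k) (fun k : L => tJ k)
    (fun u v : W => A u v) (fun (u : W) (k : L) => B u k) R
    (fun u v h => hrec u v fun h' => h (Subtype.ext h')) hR ?_ _ _ ?_]
  · simp only [rowJ_sub]
    rw [Finset.sum_add_distrib, sum_R L tJ R hR (fun k : L => x.2 k)]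
    unfold c1C
    rw [← Finset.sum_coe_sort L (fun k => fJ W tU sJ tJ B x k)]
    congr 1
    rw [← sum_prs_sub L (fun k l => tJ k * tJ l * (x.2 k + x.2 l))]
  · rw [Finset.sum_coe_sort W (fun u => tU u), Finset.sum_coe_sort L (fun k => tJ k)]
    exact hpar
  · intro u
    rw [rowU_sub]
    exact hx u u.2

theorem c2_eq (hrec : ∀ u v, u ≠ v → A u v + A v u = tU u * tU v)
    (x y : (U → ZMod 2) × (J → ZMod 2))
    (hx : ∀ u ∈ W, sU u * x.1 u + ∑ v ∈ W, A u v * (x.1 u + x.1 v) +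
      ∑ l ∈ L, B u l * (x.1 u + x.2 l) = 0)
    (hy : ∀ u ∈ W, sU u * y.1 u + ∑ v ∈ W, A u v * (y.1 u + y.1 v) +
      ∑ l ∈ L, B u l * (y.1 u + y.2 l) = 0) :
    c2C L tJ (fJ W tU sJ tJ B x) x.2 (fJ W tU sJ tJ B y) y.2 =
      bt (fun u : W => tU u) (fun k : L => tJ k)
        (fun u : W => x.1 u) (fun k : L => x.2 k) (fun u : W => y.1 u) (fun k : L => y.2 k) := by
  set R : L → L → ZMod 2 := ext (fun k : L => tJ k) (fun _ => 0) with hRd
  have hR : ∀ k l : L, k ≠ l → R k l + R l k = tJ k * tJ l := fun k l h => ext_add _ _ k l h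
  rw [← pol (fun u : W => sU u) (fun u : W => tU u) (fun k : L => sJ k) (fun k : L => tJ k)
    (fun u v : W => A u v) (fun (u : W) (k : L) => B u k) R
    (fun u v h => hrec u v fun h' => h (Subtype.ext h')) hR _ _ _ _ ?_ ?_]
  · simp only [rowJ_sub]
    unfold c2C
    rw [← Finset.sum_coe_sort L (fun k => fJ W tU sJ tJ B x k * y.2 k + fJ W tU sJ tJ B y k * x.2 k),
      ← Finset.sum_coe_sort L (fun k => ∑ l ∈ L, if k = l then 0 else tJ k * tJ l * (x.2 k * y.2 l))]
    have h1 : ∀ k : L, ∑ l ∈ L, (if (k : J) = l then 0 else tJ k * tJ l * (x.2 k * y.2 l)) =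
        ∑ l : L, (R k l + R l k) * (x.2 k * y.2 l) := by
      intro k
      rw [← Finset.sum_coe_sort L (fun l => if (k : J) = l then 0 else tJ k * tJ l * (x.2 k * y.2 l))]
      refine Finset.sum_congr rfl fun l _ => ?_
      by_cases h : k = l
      · subst h
        rw [if_pos rfl, add_self0, zero_mul]
      · rw [if_neg (fun h' => h (Subtype.ext h')), hR k l h]
    rw [Finset.sum_congr rfl fun k _ => h1 k]
    have h2 : ∑ k : L, ∑ l : L, (R k l + R l k) * (x.2 k * y.2 l) =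
        ∑ k : L, ∑ l : L, (R k l * (x.2 k * y.2 l) + R k l * (x.2 l * y.2 k)) := by
      simp only [add_mul, Finset.sum_add_distrib]
      congr 1
      rw [Finset.sum_comm]
    rw [h2, ← Finset.sum_add_distrib, ← Finset.sum_add_distrib]
    refine Finset.sum_congr rfl fun k _ => ?_
    have h3 : y.2 k * (fJ W tU sJ tJ B x k + ∑ l : L, R k l * (x.2 k + x.2 l)) +
        x.2 k * (fJ W tU sJ tJ B y k + ∑ l : L, R k l * (y.2 k + y.2 l)) =
        fJ W tU sJ tJ B x k * y.2 k + fJ W tU sJ tJ B y k * x.2 k +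
        ∑ l : L, (y.2 k * (R k l * (x.2 k + x.2 l)) + x.2 k * (R k l * (y.2 k + y.2 l))) := by
      rw [Finset.sum_add_distrib, ← Finset.mul_sum, ← Finset.mul_sum]
      ring
    rw [h3]
    congr 1
    refine Finset.sum_congr rfl fun l _ => ?_
    linear_combination (-(R k l * x.2 k * y.2 k)) * two0
  · intro u
    rw [rowU_sub]
    exact hx u u.2
  · intro u
    rw [rowU_sub]
    exact hy u u.2

/-- the conditions on the tuples of one system -/
theorem key (hpar : ∑ u ∈ W, tU u + ∑ k ∈ L, tJ k = 0)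
    (hrec : ∀ u v, u ≠ v → A u v + A v u = tU u * tU v) {m : ℕ}
    (x : Fin m → (U → ZMod 2) × (J → ZMod 2)) :
    ((∀ i, URC W L sU tU sJ tJ A B (x i)) ∧ ∀ i j, i ≠ j →
      c2C L tJ (fJ W tU sJ tJ B (x i)) (x i).2 (fJ W tU sJ tJ B (x j)) (x j).2 = 0) ↔
    (∀ i, (∀ u, u ∉ W → (x i).1 u = 0) ∧ ∀ k, k ∉ L → (x i).2 k = 0) ∧
    OKt (fun u : W => sU u) (fun u : W => tU u) (fun k : L => sJ k) (fun k : L => tJ k)
      (fun u v : W => A u v) (fun (u : W) (k : L) => B u k) (fun i (u : W) => (x i).1 u)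
      (fun i (k : L) => (x i).2 k) := by
  constructor
  · rintro ⟨h1, h2⟩
    refine ⟨fun i => ⟨(h1 i).1.1, (h1 i).1.2.1⟩, ?_, ?_, ?_⟩
    · intro i u
      rw [rowU_sub]
      exact (h1 i).1.2.2 u u.2
    · intro i
      rw [← c1_eq W L sU tU sJ tJ A B hpar hrec (x i) (h1 i).1.2.2]
      exact (h1 i).2
    · intro i j
      by_cases h : i = j
      · subst h
        exact LA2.btL_self (fun u : W => tU u) (fun k : L => tJ k)
          ((fun u : W => (x i).1 u), (fun k : L => (x i).2 k))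
      · rw [← c2_eq W L sU tU sJ tJ A B hrec (x i) (x j) (h1 i).1.2.2 (h1 j).1.2.2]
        exact h2 i j h
  · rintro ⟨h1, h2, h3, h4⟩
    have h5 : ∀ i, ∀ u ∈ W, sU u * (x i).1 u + ∑ v ∈ W, A u v * ((x i).1 u + (x i).1 v) +
        ∑ l ∈ L, B u l * ((x i).1 u + (x i).2 l) = 0 := by
      intro i u hu
      have := h2 i ⟨u, hu⟩
      rw [rowU_sub] at this
      exact this
    refine ⟨fun i => ⟨⟨(h1 i).1, (h1 i).2, h5 i⟩, ?_⟩, ?_⟩
    · rw [c1_eq W L sU tU sJ tJ A B hpar hrec (x i) (h5 i)]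
      exact h3 i
    · intro i j _
      rw [c2_eq W L sU tU sJ tJ A B hrec (x i) (x j) (h5 i) (h5 j)]
      exact h4 i j

theorem ind_iff {m : ℕ} (d : Fin m → J → ZMod 2) :
    IndC L d ↔ IndJ (fun i (k : L) => d i k) := by
  unfold IndC IndJ
  constructor
  · intro h w hw
    obtain ⟨k, hk, l, hl, h1⟩ := h w hw
    exact ⟨⟨k, hk⟩, ⟨l, hl⟩, h1⟩
  · intro h w hw
    obtain ⟨k, l, h1⟩ := h w hw
    exact ⟨k, k.2, l, l.2, h1⟩

end one

section prod

variable {I Q U J : Type} [Fintype I] [Fintype Q] [Fintype U] [Fintype J] [LinearOrder J]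
  (E : I → Finset Q) (m : I → ℕ) (W : I → Finset U) (g : J → Q)
  (sU tU : U → ZMod 2) (sJ tJ : J → ZMod 2) (A : U → U → ZMod 2) (B : U → J → ZMod 2)

/-- the tuples that are independent in each of the systems -/
noncomputable def SS : Finset ((Σ a, Fin (m a)) → (U → ZMod 2) × (J → ZMod 2)) :=
  univ.filter fun x => (∀ a, IndC (Lc E g a) (fun i : Fin (m a) => (x ⟨a, i⟩).2)) ∧
    (∀ p, URC (W p.1) (Lc E g p.1) sU tU sJ tJ A B (x p)) ∧
    ∀ (a : I) (i j : Fin (m a)), i ≠ j →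
        c2C (Lc E g a) tJ (fJ (W a) tU sJ tJ B (x ⟨a, i⟩)) (x ⟨a, i⟩).2
          (fJ (W a) tU sJ tJ B (x ⟨a, j⟩)) (x ⟨a, j⟩).2 = 0

/-- the tuples of one system -/
noncomputable def NN (a : I) :
    Finset ((Fin (m a) → (W a) → ZMod 2) × (Fin (m a) → (Lc E g a) → ZMod 2)) :=
  univ.filter fun x => IndJ x.2 ∧
    OKt (fun u : W a => sU u) (fun u : W a => tU u) (fun k : Lc E g a => sJ k)
      (fun k : Lc E g a => tJ k) (fun u v : W a => A u v)
      (fun (u : W a) (k : Lc E g a) => B u k) x.1 x.2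

theorem card_SS (hpar : ∀ a, ∑ u ∈ W a, tU u + ∑ k ∈ Lc E g a, tJ k = 0)
    (hrec : ∀ u v, u ≠ v → A u v + A v u = tU u * tU v) :
    (SS E m W g sU tU sJ tJ A B).card = ∏ a, (NN E m W g sU tU sJ tJ A B a).card := by
  rw [← Fintype.card_piFinset]
  refine Finset.card_nbij'
    (fun x a => (fun i u => (x ⟨a, i⟩).1 u, fun i k => (x ⟨a, i⟩).2 k))
    (fun y p => (fun u => if h : u ∈ W p.1 then (y p.1).1 p.2 ⟨u, h⟩ else 0,
      fun k => if h : k ∈ Lc E g p.1 then (y p.1).2 p.2 ⟨k, h⟩ else 0)) ?_ ?_ ?_ ?_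
  · intro x hx
    have hx' := (Finset.mem_filter.1 hx).2
    refine Fintype.mem_piFinset.2 fun a => ?_
    refine Finset.mem_filter.2 ⟨Finset.mem_univ _, (ind_iff _ _).1 (hx'.1 a), ?_⟩
    exact ((key (W a) (Lc E g a) sU tU sJ tJ A B (hpar a) hrec (fun i => x ⟨a, i⟩)).1
      ⟨fun i => hx'.2.1 ⟨a, i⟩, hx'.2.2 a⟩).2
  · intro y hy
    have hy' := Fintype.mem_piFinset.1 hy
    have h1 : ∀ a, (fun (i : Fin (m a)) (u : W a) =>
        if h : (u : U) ∈ W a then (y a).1 i ⟨u, h⟩ else 0) = (y a).1 := by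
      intro a
      funext i u
      rw [dif_pos u.2]
    have h2 : ∀ a, (fun (i : Fin (m a)) (u : Lc E g a) =>
        if h : (u : J) ∈ Lc E g a then (y a).2 i ⟨u, h⟩ else 0) = (y a).2 := by
      intro a
      funext i u
      rw [dif_pos u.2]
    refine Finset.mem_filter.2 ⟨Finset.mem_univ _, ?_, ?_⟩
    · intro a
      rw [ind_iff]
      simp only
      rw [h2]
      exact (Finset.mem_filter.1 (hy' a)).2.1
    · have h3 : ∀ a, (∀ i : Fin (m a), URC (W a) (Lc E g a) sU tU sJ tJ A B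
          ((fun u => if h : u ∈ W a then (y a).1 i ⟨u, h⟩ else 0),
            fun k => if h : k ∈ Lc E g a then (y a).2 i ⟨k, h⟩ else 0)) ∧ _ := fun a =>
        ((key (W a) (Lc E g a) sU tU sJ tJ A B (hpar a) hrec
          (fun i : Fin (m a) => ((fun u => if h : u ∈ W a then (y a).1 i ⟨u, h⟩ else 0),
            fun k => if h : k ∈ Lc E g a then (y a).2 i ⟨k, h⟩ else 0))).2
          ⟨fun i => ⟨fun u hu => dif_neg hu, fun k hk => dif_neg hk⟩, by
            simp only
            rw [h1, h2]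
            exact (Finset.mem_filter.1 (hy' a)).2.2⟩)
      exact ⟨fun p => (h3 p.1).1 p.2, fun a => (h3 a).2⟩
  · intro x hx
    have hx' := (Finset.mem_filter.1 hx).2
    funext p
    refine Prod.ext ?_ ?_
    · funext u
      simp only
      by_cases h : u ∈ W p.1
      · rw [dif_pos h]
      · rw [dif_neg h]
        exact ((hx'.2.1 p).1.1 u h).symm
    · funext u
      simp only
      by_cases h : u ∈ Lc E g p.1
      · rw [dif_pos h]
      · rw [dif_neg h]
        exact ((hx'.2.1 p).1.2.1 u h).symm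
  · intro y hy
    funext a
    refine Prod.ext ?_ ?_
    · funext i u
      simp only
      rw [dif_pos u.2]
    · funext i u
      simp only
      rw [dif_pos u.2]

/-- the tuples with a relation on the colour `q` -/
noncomputable def Bd (q : Q) (w : (Σ a, Fin (m a)) → ZMod 2) :
    Finset ((Σ a, Fin (m a)) → (U → ZMod 2) × (J → ZMod 2)) :=
  univ.filter fun x => (∀ p, (∀ u, u ∉ W p.1 → (x p).1 u = 0) ∧
      ∀ k, k ∉ Lc E g p.1 → (x p).2 k = 0) ∧
    ∀ k l, g k = q → g l = q → ∑ p, w p * ((x p).2 k + (x p).2 l) = 0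

theorem card_Bd (q : Q) (w : (Σ a, Fin (m a)) → ZMod 2) (p0 : Σ a, Fin (m a)) (hw : w p0 ≠ 0)
    (hq : q ∈ E p0.1) (hne : ∃ k, g k = q) :
    (Bd E m W g q w).card * 2 ^ (univ.filter fun k => g k = q).card ≤
      2 ^ (Fintype.card (Σ a, Fin (m a)) * Fintype.card U + 1 + ∑ p : Σ a, Fin (m a),
        (Lc E g p.1).card) := by
  obtain ⟨k0, hk0⟩ := hne
  set Jq : Finset J := univ.filter fun k => g k = q with hJq
  set L' : (Σ a, Fin (m a)) → Finset J := fun p => if p = p0 then Lc E g p.1 \ Jq else Lc E g p.1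
    with hL'
  have hsub : Jq ⊆ Lc E g p0.1 := by
    intro k hk
    have h1 : g k = q := (Finset.mem_filter.1 hk).2
    refine Finset.mem_filter.2 ⟨Finset.mem_univ _, ?_⟩
    rw [h1]
    exact hq
  have hsum : ∑ p, (L' p).card + Jq.card = ∑ p : Σ a, Fin (m a), (Lc E g p.1).card := by
    rw [← Finset.add_sum_erase univ _ (Finset.mem_univ p0),
      ← Finset.add_sum_erase univ (fun p : Σ a, Fin (m a) => (Lc E g p.1).card)
        (Finset.mem_univ p0)]
    have h1 : (L' p0).card + Jq.card = (Lc E g p0.1).card := by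
      rw [hL']
      simp only [if_true]
      exact Finset.card_sdiff_add_card_eq_card hsub
    have h2 : ∑ p ∈ univ.erase p0, (L' p).card =
        ∑ p ∈ univ.erase p0, (Lc E g p.1).card := by
      refine Finset.sum_congr rfl fun p hp => ?_
      rw [hL']
      simp only [if_neg (Finset.ne_of_mem_erase hp)]
    rw [h2]
    omega
  have hcard : (Bd E m W g q w).card ≤
      (univ : Finset (((Σ a, Fin (m a)) → U → ZMod 2) × ZMod 2 ×
        ((p : Σ a, Fin (m a)) → (L' p) → ZMod 2))).card := by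
    refine Finset.card_le_card_of_injOn
      (fun x => (fun p => (x p).1, ∑ p, w p * (x p).2 k0, fun p k => (x p).2 k))
      (fun x _ => Finset.mem_univ _) ?_
    intro x hx y hy hxy
    have hx' := (Finset.mem_filter.1 hx).2
    have hy' := (Finset.mem_filter.1 hy).2
    simp only [Prod.mk.injEq] at hxy
    obtain ⟨e1, e2, e3⟩ := hxy
    have e3' : ∀ p, ∀ k ∈ L' p, (x p).2 k = (y p).2 k := fun p k hk =>
      congrFun (congrFun e3 p) ⟨k, hk⟩
    have e4 : ∀ p, p ≠ p0 → (x p).2 = (y p).2 := by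
      intro p hp
      funext k
      by_cases hk : k ∈ Lc E g p.1
      · refine e3' p k ?_
        rw [hL']
        simp only [if_neg hp]
        exact hk
      · rw [(hx'.1 p).2 k hk, (hy'.1 p).2 k hk]
    have hw1 : w p0 = 1 := LA2.eq_one _ hw
    have e5 : (x p0).2 = (y p0).2 := by
      funext k
      by_cases hk : k ∈ Lc E g p0.1
      · by_cases hkq : k ∈ Jq
        · have hg : g k = q := (Finset.mem_filter.1 hkq).2
          have r1 := hx'.2 k k0 hg hk0
          have r2 := hy'.2 k k0 hg hk0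
          have r3 : ∑ p, w p * (x p).2 k = ∑ p, w p * (y p).2 k := by
            simp only [mul_add, Finset.sum_add_distrib] at r1 r2
            rw [add_eq0.1 r1, add_eq0.1 r2]
            exact e2
          rw [← Finset.add_sum_erase univ _ (Finset.mem_univ p0),
            ← Finset.add_sum_erase univ (fun p => w p * (y p).2 k) (Finset.mem_univ p0)] at r3
          have r4 : ∑ p ∈ univ.erase p0, w p * (x p).2 k =
              ∑ p ∈ univ.erase p0, w p * (y p).2 k := by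
            refine Finset.sum_congr rfl fun p hp => ?_
            rw [e4 p (Finset.ne_of_mem_erase hp)]
          rw [r4, hw1, one_mul, one_mul] at r3
          exact add_right_cancel r3
        · refine e3' p0 k ?_
          rw [hL']
          simp only [if_true]
          exact Finset.mem_sdiff.2 ⟨hk, hkq⟩
      · rw [(hx'.1 p0).2 k hk, (hy'.1 p0).2 k hk]
    funext p
    refine Prod.ext (congrFun e1 p) ?_
    by_cases hp : p = p0
    · rw [hp]
      exact e5
    · exact e4 p hp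
  have hT : (univ : Finset (((Σ a, Fin (m a)) → U → ZMod 2) × ZMod 2 ×
        ((p : Σ a, Fin (m a)) → (L' p) → ZMod 2))).card =
      2 ^ (Fintype.card (Σ a, Fin (m a)) * Fintype.card U) * (2 * 2 ^ ∑ p, (L' p).card) := by
    rw [Finset.card_univ, Fintype.card_prod, Fintype.card_prod, Fintype.card_fun, Fintype.card_fun,
      ZMod.card, Fintype.card_pi, ← pow_mul, mul_comm (Fintype.card U)]
    congr 2
    rw [← Finset.prod_pow_eq_pow_sum]
    refine Finset.prod_congr rfl fun p _ => ?_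
    rw [Fintype.card_fun, ZMod.card, Fintype.card_coe]
  calc (Bd E m W g q w).card * 2 ^ Jq.card ≤
      (2 ^ (Fintype.card (Σ a, Fin (m a)) * Fintype.card U) * (2 * 2 ^ ∑ p, (L' p).card)) *
        2 ^ Jq.card := Nat.mul_le_mul_right _ (hcard.trans hT.le)
    _ = _ := by
      rw [← hsum]
      ring

end prod

theorem prod_close {I : Type} (s : Finset I) (r : I → ℝ) (δ : ℝ) (h0 : 0 ≤ δ)
    (h : ∀ a, |r a - 1| ≤ δ) : |∏ a ∈ s, r a - 1| ≤ (1 + δ) ^ s.card - 1 := by
  induction s using Finset.induction_on with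
  | empty => simp
  | insert a s ha ih =>
    rw [Finset.prod_insert ha, Finset.card_insert_of_notMem ha, pow_succ]
    have h1 : r a * ∏ b ∈ s, r b - 1 =
        (r a - 1) * (∏ b ∈ s, r b - 1) + ((r a - 1) + (∏ b ∈ s, r b - 1)) := by ring
    have h2 : |(r a - 1) * (∏ b ∈ s, r b - 1)| ≤ δ * ((1 + δ) ^ s.card - 1) := by
      rw [abs_mul]
      exact mul_le_mul (h a) ih (abs_nonneg _) h0
    rw [h1]
    calc _ ≤ |(r a - 1) * (∏ b ∈ s, r b - 1)| + |(r a - 1) + (∏ b ∈ s, r b - 1)| := abs_add_le _ _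
      _ ≤ δ * ((1 + δ) ^ s.card - 1) + (δ + ((1 + δ) ^ s.card - 1)) :=
        add_le_add h2 ((abs_add_le _ _).trans (add_le_add (h a) ih))
      _ = _ := by ring

theorem exists_delta (n : ℕ) (δ : ℝ) (hδ : 0 < δ) :
    ∃ δ' : ℝ, 0 < δ' ∧ (1 + δ') ^ n - 1 ≤ δ / 2 := by
  have h1 : 0 < Real.log (1 + δ / 2) := Real.log_pos (by linarith)
  have hn : (0 : ℝ) < n + 1 := by positivity
  refine ⟨Real.log (1 + δ / 2) / (n + 1), div_pos h1 hn, ?_⟩
  have h2 : (1 + Real.log (1 + δ / 2) / (n + 1)) ^ n ≤ 1 + δ / 2 := by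
    calc (1 + Real.log (1 + δ / 2) / (n + 1)) ^ n ≤
        (Real.exp (Real.log (1 + δ / 2) / (n + 1))) ^ n := by
          refine pow_le_pow_left₀ (by positivity) ?_ n
          rw [add_comm]
          exact Real.add_one_le_exp _
      _ = Real.exp (n * (Real.log (1 + δ / 2) / (n + 1))) := by
          rw [← Real.exp_nat_mul]
      _ ≤ Real.exp (Real.log (1 + δ / 2)) := by
          refine Real.exp_le_exp.2 ?_
          rw [mul_div_assoc', div_le_iff₀ hn]
          nlinarith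
      _ = 1 + δ / 2 := Real.exp_log (by linarith)
  linarith

section main

variable {I Q U J : Type} [Fintype I] [Fintype Q] [Fintype U] [Fintype J] [LinearOrder J]
  (E : I → Finset Q) (m : I → ℕ) (W : I → Finset U) (g : J → Q)
  (sU tU : U → ZMod 2) (sJ tJ : J → ZMod 2) (A : U → U → ZMod 2) (B : U → J → ZMod 2)

theorem NN_close (hE : Fam E) (K V : ℕ) (hK : 4 + V ≤ K) (h : HypC K W E g sU tU sJ tJ A B) (a : I)
    (δ : ℝ)
    (hV : ∀ (U J : Type) [Fintype U] [Fintype J]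
      (sU tU : U → ZMod 2) (sJ tJ : J → ZMod 2) (A : U → U → ZMod 2) (B : U → J → ZMod 2),
      4 * Fintype.card U + V ≤ (univ.filter fun j => tJ j = 1).card →
      ∑ u, tU u + ∑ j, tJ j = 0 → (∀ u v, u ≠ v → A u v + A v u = tU u * tU v) →
      (∀ (w : U → ZMod 2) (e : ZMod 2), ((∃ u, w u ≠ 0) ∨ e ≠ 0) →
        ∃ k, e * (sJ k + tJ k) + ∑ u, w u * B u k ≠ 0) →
      |((univ.filter fun x : (Fin (m a) → U → ZMod 2) × (Fin (m a) → J → ZMod 2) =>
          IndJ x.2 ∧ OKt sU tU sJ tJ A B x.1 x.2).card : ℝ) * 2 ^ (m a).choose 2 /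
          2 ^ (m a * (Fintype.card J - 1)) - 1| ≤ δ) :
    |((NN E m W g sU tU sJ tJ A B a).card : ℝ) * 2 ^ (m a).choose 2 /
          2 ^ (m a * ((Lc E g a).card - 1)) - 1| ≤ δ := by
  have h0 := hV (W a) (Lc E g a) (fun u => sU u) (fun u => tU u) (fun k => sJ k) (fun k => tJ k)
    (fun u v => A u v) (fun u k => B u k) ?_ ?_ ?_ ?_
  · rw [Fintype.card_coe] at h0
    unfold NN
    convert h0
  · obtain ⟨q, hq⟩ := hE.ne a
    have h1 := h.many q
    have h2 : (univ.filter fun k => g k = q ∧ tJ k = 1).card ≤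
        (univ.filter fun j : Lc E g a => tJ j = 1).card := by
      have h3 : ((Lc E g a).filter fun k => tJ k = 1).card =
          (univ.filter fun j : Lc E g a => tJ j = 1).card := by
        symm
        refine Finset.card_bij (fun j _ => (j : J)) ?_ ?_ ?_
        · intro j hj
          exact Finset.mem_filter.2 ⟨j.2, (Finset.mem_filter.1 hj).2⟩
        · intro j _ l _ hjl
          exact Subtype.ext hjl
        · intro k hk
          have hk' := Finset.mem_filter.1 hk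
          exact ⟨⟨k, hk'.1⟩, Finset.mem_filter.2 ⟨Finset.mem_univ _, hk'.2⟩, rfl⟩
      rw [← h3]
      refine Finset.card_le_card ?_
      intro k hk
      have hk' := (Finset.mem_filter.1 hk).2
      refine Finset.mem_filter.2 ⟨Finset.mem_filter.2 ⟨Finset.mem_univ _, ?_⟩, hk'.2⟩
      rw [hk'.1]
      exact hq
    refine le_trans ?_ (h1.trans h2)
    have h4 : Fintype.card (W a) ≤ Fintype.card U := by
      rw [Fintype.card_coe]
      exact Finset.card_le_univ _
    calc 4 * Fintype.card (W a) + V ≤ (4 + V) * (Fintype.card U + Nat.log 2 (Fintype.card J) + 1) := by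
          nlinarith [Nat.zero_le (V * Fintype.card U), Nat.zero_le (Nat.log 2 (Fintype.card J)),
            Nat.zero_le (V * Nat.log 2 (Fintype.card J))]
      _ ≤ K * (Fintype.card U + Nat.log 2 (Fintype.card J) + 1) := Nat.mul_le_mul_right _ hK
  · rw [Finset.sum_coe_sort (W a) (fun u => tU u), Finset.sum_coe_sort (Lc E g a) (fun k => tJ k)]
    exact h.par a
  · intro u v huv
    exact h.recip u v fun h' => huv (Subtype.ext h')
  · intro w e hwe
    obtain ⟨q, hq⟩ := hE.ne a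
    have h1 := (h.nd q (fun u => if hu : u ∈ W a then w ⟨u, hu⟩ else 0) e ?_).2
    · obtain ⟨k, hk, h2⟩ := h1
      refine ⟨⟨k, Finset.mem_filter.2 ⟨Finset.mem_univ _, by rw [hk]; exact hq⟩⟩, ?_⟩
      have h3 : ∑ u, (if hu : u ∈ W a then w ⟨u, hu⟩ else 0) * B u k =
          ∑ u : W a, w u * B u k := by
        rw [← Finset.sum_subset (Finset.subset_univ (W a)), ← Finset.sum_coe_sort (W a)]
        · refine Finset.sum_congr rfl fun u _ => ?_
          rw [dif_pos u.2]
        · intro u _ hu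
          rw [dif_neg hu, zero_mul]
      rw [h3] at h2
      exact h2
    · rcases hwe with ⟨u, hu⟩ | he
      · left
        refine ⟨u, ?_⟩
        rw [dif_pos u.2]
        exact hu
      · right
        exact he

theorem SS_close (hE : Fam E) (K : ℕ) (h : HypC K W E g sU tU sJ tJ A B) (δ : ℝ) (hδ : 0 ≤ δ)
    (hN : ∀ a, |((NN E m W g sU tU sJ tJ A B a).card : ℝ) * 2 ^ (m a).choose 2 /
          2 ^ (m a * ((Lc E g a).card - 1)) - 1| ≤ δ) :
    |((SS E m W g sU tU sJ tJ A B).card : ℝ) * 2 ^ (∑ a, (m a).choose 2) /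
      2 ^ (∑ a, m a * ((Lc E g a).card - 1)) - 1| ≤ (1 + δ) ^ Fintype.card I - 1 := by
  have h1 := prod_close (univ : Finset I) (fun a => ((NN E m W g sU tU sJ tJ A B a).card : ℝ) *
    2 ^ (m a).choose 2 / 2 ^ (m a * ((Lc E g a).card - 1))) δ hδ hN
  rw [Finset.prod_div_distrib, Finset.prod_mul_distrib, Finset.prod_pow_eq_pow_sum,
    Finset.prod_pow_eq_pow_sum, Finset.card_univ, ← Nat.cast_prod,
    ← card_SS E m W g sU tU sJ tJ A B h.par h.recip] at h1
  exact h1

/-- the strongly independent tuples -/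
noncomputable def TT : Finset ((Σ a, Fin (m a)) → (U → ZMod 2) × (J → ZMod 2)) :=
  univ.filter fun x => StrC E g (fun p => (x p).2) ∧
      (∀ p, URC (W p.1) (Lc E g p.1) sU tU sJ tJ A B (x p)) ∧
      ∀ (a : I) (i j : Fin (m a)), i ≠ j →
        c2C (Lc E g a) tJ (fJ (W a) tU sJ tJ B (x ⟨a, i⟩)) (x ⟨a, i⟩).2
          (fJ (W a) tU sJ tJ B (x ⟨a, j⟩)) (x ⟨a, j⟩).2 = 0

theorem TT_sub (hE : Fam E) :
    TT E m W g sU tU sJ tJ A B ⊆ SS E m W g sU tU sJ tJ A B := by
  intro x hx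
  have hx' := (Finset.mem_filter.1 hx).2
  refine Finset.mem_filter.2 ⟨Finset.mem_univ _, ?_, hx'.2⟩
  intro a w hw
  obtain ⟨q, hq⟩ := hE.ne a
  obtain ⟨i0, hi0⟩ := hw
  have hs1 : ∀ p : Σ a, Fin (m a), q ∉ E p.1 →
      (if h : p.1 = a then w (h ▸ p.2) else 0) = 0 := by
    rintro ⟨b, i⟩ hb
    rw [dif_neg]
    rintro rfl
    exact hb hq
  have hs2 : ∃ p : Σ a, Fin (m a), (if h : p.1 = a then w (h ▸ p.2) else 0) ≠ 0 :=
    ⟨⟨a, i0⟩, by simpa using hi0⟩
  obtain ⟨k, l, hk, hl, h1⟩ := hx'.1 q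
    (fun p => if h : p.1 = a then w (h ▸ p.2) else 0) hs1 hs2
  · refine ⟨k, Finset.mem_filter.2 ⟨Finset.mem_univ _, by rw [hk]; exact hq⟩, l,
      Finset.mem_filter.2 ⟨Finset.mem_univ _, by rw [hl]; exact hq⟩, ?_⟩
    have h2 : ∑ p : Σ a, Fin (m a), (if h : p.1 = a then w (h ▸ p.2) else 0) *
        ((x p).2 k + (x p).2 l) = ∑ i, w i * ((x ⟨a, i⟩).2 k + (x ⟨a, i⟩).2 l) := by
      rw [← Finset.univ_sigma_univ, Finset.sum_sigma, Finset.sum_eq_single a]
      · refine Finset.sum_congr rfl fun i _ => ?_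
        simp
      · intro b _ hb
        refine Finset.sum_eq_zero fun i _ => ?_
        simp only
        rw [dif_neg hb, zero_mul]
      · intro h
        exact absurd (Finset.mem_univ _) h
    rw [h2] at h1
    exact h1

theorem sdiff_sub (hE : Fam E) :
    SS E m W g sU tU sJ tJ A B \ TT E m W g sU tU sJ tJ A B ⊆
      ((univ : Finset (Q × ((Σ a, Fin (m a)) → ZMod 2))).filter fun z =>
        (∀ p, z.1 ∉ E p.1 → z.2 p = 0) ∧ ∃ p, z.2 p ≠ 0).biUnion
        fun z => Bd E m W g z.1 z.2 := by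
  intro x hx
  rw [Finset.mem_sdiff] at hx
  have h1 := (Finset.mem_filter.1 hx.1).2
  have h2 : ¬ StrC E g (fun p => (x p).2) := fun h3 =>
    hx.2 (Finset.mem_filter.2 ⟨Finset.mem_univ _, h3, h1.2⟩)
  unfold StrC at h2
  push Not at h2
  obtain ⟨q, w, hw1, hw2, hw3⟩ := h2
  refine Finset.mem_biUnion.2 ⟨(q, w), Finset.mem_filter.2 ⟨Finset.mem_univ _, hw1, hw2⟩, ?_⟩
  refine Finset.mem_filter.2 ⟨Finset.mem_univ _, fun p => ⟨(h1.2.1 p).1.1, (h1.2.1 p).1.2.1⟩, ?_⟩
  exact hw3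

theorem sdiff_card (hE : Fam E) (K0 : ℕ) (hne : ∀ a, 1 ≤ (Lc E g a).card)
    (hq0 : ∀ q : Q, Fintype.card (Σ a, Fin (m a)) * Fintype.card U + K0 ≤
      (univ.filter fun k => g k = q).card) (hK0 : 1 ≤ K0) :
    (SS E m W g sU tU sJ tJ A B \ TT E m W g sU tU sJ tJ A B).card * 2 ^ K0 ≤
      Fintype.card Q * 2 ^ (2 * Fintype.card (Σ a, Fin (m a)) + 1) *
        2 ^ (∑ a, m a * ((Lc E g a).card - 1)) := by
  set M := Fintype.card (Σ a, Fin (m a)) with hM
  have hL : ∑ p : Σ a, Fin (m a), (Lc E g p.1).card =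
      ∑ a, m a * ((Lc E g a).card - 1) + M := by
    rw [hM, Fintype.card_sigma, ← Finset.sum_add_distrib, ← Finset.univ_sigma_univ,
      Finset.sum_sigma]
    refine Finset.sum_congr rfl fun a _ => ?_
    show ∑ _s : Fin (m a), (Lc E g a).card = _
    rw [Finset.sum_const, Finset.card_univ, Fintype.card_fin, smul_eq_mul]
    have := hne a
    conv_lhs => rw [← Nat.sub_add_cancel this]
    ring
  set Z := (univ : Finset (Q × ((Σ a, Fin (m a)) → ZMod 2))).filter fun z =>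
        (∀ p, z.1 ∉ E p.1 → z.2 p = 0) ∧ ∃ p, z.2 p ≠ 0 with hZ
  have hZc : Z.card ≤ Fintype.card Q * 2 ^ M := by
    calc Z.card ≤ (univ : Finset (Q × ((Σ a, Fin (m a)) → ZMod 2))).card := Finset.card_filter_le _ _
      _ = _ := by
        rw [Finset.card_univ, Fintype.card_prod, Fintype.card_fun, ZMod.card]
  have hB : ∀ z ∈ Z, (Bd E m W g z.1 z.2).card * 2 ^ K0 ≤
      2 ^ (M + 1 + ∑ a, m a * ((Lc E g a).card - 1)) := by
    rintro ⟨q, w⟩ hz
    have hz' := (Finset.mem_filter.1 hz).2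
    obtain ⟨p0, hp0⟩ := hz'.2
    have hq : q ∈ E p0.1 := by
      by_contra h
      exact hp0 (hz'.1 p0 h)
    have hne' : ∃ k, g k = q := by
      have h1 := hq0 q
      have h2 : 0 < (univ.filter fun k => g k = q).card := by omega
      obtain ⟨k, hk⟩ := Finset.card_pos.1 h2
      exact ⟨k, (Finset.mem_filter.1 hk).2⟩
    have h1 := card_Bd E m W g q w p0 hp0 hq hne'
    rw [← hM, hL] at h1
    have h2 : (Bd E m W g q w).card * 2 ^ (M * Fintype.card U + K0) ≤
        2 ^ (M * Fintype.card U + 1 + (∑ a, m a * ((Lc E g a).card - 1) + M)) :=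
      (Nat.mul_le_mul_left _ (Nat.pow_le_pow_right (by norm_num) (hq0 q))).trans h1
    have h3 : 2 ^ (M * Fintype.card U) * ((Bd E m W g q w).card * 2 ^ K0) ≤
        2 ^ (M * Fintype.card U) * 2 ^ (M + 1 + ∑ a, m a * ((Lc E g a).card - 1)) := by
      calc _ = (Bd E m W g q w).card * 2 ^ (M * Fintype.card U + K0) := by ring
        _ ≤ _ := h2
        _ = _ := by ring
    exact Nat.le_of_mul_le_mul_left h3 (by positivity)
  calc (SS E m W g sU tU sJ tJ A B \ TT E m W g sU tU sJ tJ A B).card * 2 ^ K0 ≤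
      (∑ z ∈ Z, (Bd E m W g z.1 z.2).card) * 2 ^ K0 :=
        Nat.mul_le_mul_right _ ((Finset.card_le_card (sdiff_sub E m W g sU tU sJ tJ A B hE)).trans
          Finset.card_biUnion_le)
    _ = ∑ z ∈ Z, (Bd E m W g z.1 z.2).card * 2 ^ K0 := Finset.sum_mul _ _ _
    _ ≤ ∑ z ∈ Z, 2 ^ (M + 1 + ∑ a, m a * ((Lc E g a).card - 1)) := Finset.sum_le_sum hB
    _ = Z.card * 2 ^ (M + 1 + ∑ a, m a * ((Lc E g a).card - 1)) := by
      rw [Finset.sum_const, smul_eq_mul]
    _ ≤ (Fintype.card Q * 2 ^ M) * 2 ^ (M + 1 + ∑ a, m a * ((Lc E g a).card - 1)) :=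
      Nat.mul_le_mul_right _ hZc
    _ = _ := by ring

end main

theorem t_LA2C : S_LA2C := by
  intro I Q _ _ E hE m δ hδ
  obtain ⟨δ', hδ0, hδ1⟩ := exists_delta (Fintype.card I) δ hδ
  choose V hV using fun a : I => LA2.t_LA2 (m a) δ' hδ0
  set M := Fintype.card (Σ a, Fin (m a)) with hM
  set C := ∑ a, (m a).choose 2 with hC
  obtain ⟨K0, hK0⟩ := pow_unbounded_of_one_lt
    ((Fintype.card Q : ℝ) * 2 ^ (2 * M + 1) * 2 ^ C / (δ / 2)) (one_lt_two (α := ℝ))
  refine ⟨4 + ∑ a, V a + M + (K0 + 1), ?_⟩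
  intro U J _ _ _ W g sU tU sJ tJ A B h
  have hq0 : ∀ q : Q, M * Fintype.card U + (K0 + 1) ≤ (univ.filter fun k => g k = q).card := by
    intro q
    have h1 := h.many q
    have h2 : (univ.filter fun k => g k = q ∧ tJ k = 1).card ≤
        (univ.filter fun k => g k = q).card := by
      refine Finset.card_le_card fun k hk => ?_
      exact Finset.mem_filter.2 ⟨Finset.mem_univ _, (Finset.mem_filter.1 hk).2.1⟩
    refine le_trans ?_ (h1.trans h2)
    have h3 : M * Fintype.card U + (K0 + 1) ≤ (M + (K0 + 1)) * (Fintype.card U + 1) := by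
      nlinarith [Nat.zero_le M, Nat.zero_le ((K0 + 1) * Fintype.card U)]
    refine h3.trans ?_
    exact Nat.mul_le_mul (by omega) (by omega)
  have hne : ∀ a, 1 ≤ (Lc E g a).card := by
    intro a
    obtain ⟨q, hq⟩ := hE.ne a
    have h1 := hq0 q
    refine le_trans (by omega : 1 ≤ (univ.filter fun k => g k = q).card) ?_
    refine Finset.card_le_card fun k hk => ?_
    refine Finset.mem_filter.2 ⟨Finset.mem_univ _, ?_⟩
    rw [(Finset.mem_filter.1 hk).2]
    exact hq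
  have hS := SS_close E m W g sU tU sJ tJ A B hE _ h δ' hδ0.le
    (fun a => NN_close E m W g sU tU sJ tJ A B hE _ (V a) (by
      have := Finset.single_le_sum (f := V) (fun b _ => Nat.zero_le _) (Finset.mem_univ a)
      omega) h a δ' (hV a))
  have hB := sdiff_card E m W g sU tU sJ tJ A B hE (K0 + 1) hne hq0 (by omega)
  have hc := Finset.card_sdiff_add_card_eq_card (TT_sub E m W g sU tU sJ tJ A B hE)
  set D : ℝ := 2 ^ (∑ a, m a * ((Lc E g a).card - 1)) with hD
  have hDpos : 0 < D := by positivity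
  set x1 : ℝ := ((SS E m W g sU tU sJ tJ A B \ TT E m W g sU tU sJ tJ A B).card : ℝ) with hx1
  set x2 : ℝ := ((TT E m W g sU tU sJ tJ A B).card : ℝ) with hx2
  set x3 : ℝ := ((SS E m W g sU tU sJ tJ A B).card : ℝ) with hx3
  have hc' : x1 + x2 = x3 := by
    rw [hx1, hx2, hx3, ← Nat.cast_add, hc]
  have hB' : x1 * 2 ^ (K0 + 1) ≤ (Fintype.card Q : ℝ) * 2 ^ (2 * M + 1) * D := by
    rw [hx1, hD]
    exact_mod_cast hB
  have hx1C : x1 * 2 ^ C / D ≤ δ / 2 := by
    rw [div_le_iff₀ hDpos]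
    have h4 : (Fintype.card Q : ℝ) * 2 ^ (2 * M + 1) * 2 ^ C ≤ δ / 2 * 2 ^ (K0 + 1) := by
      have h5 := (div_lt_iff₀ (by linarith : (0 : ℝ) < δ / 2)).1 hK0
      have h6 : (2 : ℝ) ^ K0 ≤ 2 ^ (K0 + 1) := pow_le_pow_right₀ (by norm_num) (by omega)
      nlinarith
    have h7 : (0 : ℝ) < 2 ^ (K0 + 1) := by positivity
    have h8 : (0 : ℝ) < 2 ^ C := by positivity
    refine le_of_mul_le_mul_right ?_ h7
    calc x1 * 2 ^ C * 2 ^ (K0 + 1) = (x1 * 2 ^ (K0 + 1)) * 2 ^ C := by ring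
      _ ≤ ((Fintype.card Q : ℝ) * 2 ^ (2 * M + 1) * D) * 2 ^ C :=
        mul_le_mul_of_nonneg_right hB' h8.le
      _ = ((Fintype.card Q : ℝ) * 2 ^ (2 * M + 1) * 2 ^ C) * D := by ring
      _ ≤ (δ / 2 * 2 ^ (K0 + 1)) * D := mul_le_mul_of_nonneg_right h4 hDpos.le
      _ = _ := by ring
  have hx1n : 0 ≤ x1 * 2 ^ C / D := by
    rw [hx1]
    positivity
  have hfin : |x2 * 2 ^ C / D - 1| ≤ δ := by
    have h9 : x2 * 2 ^ C / D - 1 = (x3 * 2 ^ C / D - 1) - x1 * 2 ^ C / D := by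
      rw [← hc']
      ring
    rw [h9]
    calc _ ≤ |x3 * 2 ^ C / D - 1| + |x1 * 2 ^ C / D| := abs_sub _ _
      _ ≤ δ / 2 + δ / 2 := by
        refine add_le_add (hS.trans hδ1) ?_
        rw [abs_of_nonneg hx1n]
        exact hx1C
      _ = δ := by ring
  exact hfin

end Pool.Agent.N717.QT.LA2C
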